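import Pool.Agent.CLAM.C26
import Pool.Agent.CLAM.C30

/-!
# Simultaneous Waring decompositions of several forms: the classification

Blueprints helper46, helper88, helper27, helper34, helper54, helper68, helper25, helper9, helper42
and many others.
-/

set_option autoImplicit false

namespace Pool.Agent.Results.MP_db021c_ag.Classification

open Pool.Agent

/-- Let `n ≥ 1`, `d ≥ 1`, `s ≥ 2`, `N = binom(n+d, n)`. Property `W(d, h, n, s)` holds if and only if
`h ≥ min(s, N)`, `h (n + s) ≥ s N` and `(d, h, n, s)` is neither `(3, 5, 2, 2)` nor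
`(2, (3 n + 1)/2, n, 3)` with `n` odd. -/
theorem result (n d s h : ℕ) (hn : 1 ≤ n) (hd : 1 ≤ d) (hs : 2 ≤ s) :
    Waring.W d h n s ↔
      (min s ((n + d).choose n) ≤ h ∧ s * (n + d).choose n ≤ h * (n + s)) ∧
        ¬ (d = 3 ∧ h = 5 ∧ n = 2 ∧ s = 2) ∧ ¬ (d = 2 ∧ 2 * h = 3 * n + 1 ∧ Odd n ∧ s = 3) :=
  WarC.W_all_of WarR.W_two n d s h hn hd hs

end Pool.Agent.Results.MP_db021c_ag.Classification
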